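import Pool.Agent.Helper50.MB.Goals

/-!
# Packet MB-PAR (MP_fda85d_co): the two ends of an arc have different parities
-/

set_option autoImplicit false

namespace Pool.Agent.Helper53.MB

open Pool.Agent.Helper50.MB

theorem aux {l h : ℤ} {a : ℤ → ℤ} (H : NCI l h a) {x : ℤ} (hl : l ≤ x) (hx : x < a x) :
    (a x - x) % 2 = 1 := by
  have hh : a x < h := by
    by_contra hc
    push Not at hc
    have h1 := H.out (a x) (Or.inr hc)
    rw [H.inv] at h1
    omega
  have hmem : ∀ y ∈ Finset.Ioo x (a x), a y ∈ Finset.Ioo x (a x) := by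
    intro y hy
    rw [Finset.mem_Ioo] at hy ⊢
    refine ⟨?_, H.nc x y hy.1 hy.2⟩
    rcases lt_trichotomy (a y) x with h1 | h1 | h1
    · have h2 := H.nc (a y) x h1 (by rw [H.inv]; exact hy.1)
      rw [H.inv] at h2
      omega
    · have h2 := H.inv y
      rw [h1] at h2
      omega
    · exact h1
  have hs : ∑ y ∈ Finset.Ioo x (a x), (1 : ZMod 2) = 0 := by
    refine Finset.sum_involution (fun y _ ↦ a y) ?_ ?_ hmem ?_
    · intro y _
      decide
    · intro y hy _
      rw [Finset.mem_Ioo] at hy
      exact H.ne y (by omega) (by omega)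
    · intro y _
      exact H.inv y
  rw [Finset.sum_const, Int.card_Ioo, nsmul_eq_mul, mul_one] at hs
  rw [ZMod.natCast_eq_zero_iff] at hs
  omega

/-- **PAR**: the two ends of an arc have different parities. -/
theorem goalPAR : PAR := by
  intro l h a H z hl hh
  rcases lt_trichotomy z (a z) with h1 | h1 | h1
  · exact aux H hl h1
  · exact absurd h1.symm (H.ne z hl hh)
  · have h2 : l ≤ a z := by
      by_contra hc
      push Not at hc
      have h3 := H.out (a z) (Or.inl hc)
      rw [H.inv] at h3
      omega
    have h3 := aux H h2 (by rw [H.inv]; exact h1)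
    rw [H.inv] at h3
    omega

end Pool.Agent.Helper53.MB
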